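import Pool.Agent.E8helper80.AX.B1
import Pool.Agent.E8helper57.AX.Apex

/-! AX piece B2 (project AX of helper80, MP_cfebfb_ag): `apexfree`. -/

set_option autoImplicit false

namespace Pool.Agent.E8helper39.AX

open Finset Polynomial
open Pool.Agent.E8helper80.AX
open Pool.Agent.E8helper57.AX (KK_bounds supp ph_high ph_low tc_zero)

theorem KK_quad : 2 * KK * (KK - 9) = 9 := by
  have h : √(11 : ℝ) * √11 = 11 := Real.mul_self_sqrt (by norm_num)
  unfold KK
  nlinarith

theorem KK_irr (a n : ℤ) (hn : n ≠ 0) : KK * (n : ℝ) ≠ a := by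
  intro h
  have hirr : Irrational (√(11 : ℝ)) := by
    have := Nat.Prime.irrational_sqrt (show Nat.Prime 11 by norm_num)
    simpa using this
  apply hirr
  have hn' : (n : ℝ) ≠ 0 := by exact_mod_cast hn
  refine ⟨2 * (a : ℚ) / (3 * n) - 3, ?_⟩
  push_cast
  unfold KK at h
  have : √(11 : ℝ) * (3 * n) = 2 * a - 9 * n := by linarith
  field_simp
  linarith

theorem factor0 {P : ℚ[X]} {i n : ℕ} (h1 : ∀ k < i, P.coeff k = 0)
    (h2 : ∀ b < n, (taylor 1 P).coeff b = 0) (h3 : P.natDegree < i + n) : P = 0 := by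
  have d1 : X ^ i ∣ P := X_pow_dvd_iff.2 h1
  have d2 : (X - C 1) ^ n ∣ P := by
    rw [X_sub_C_pow_dvd_iff, X_pow_dvd_iff]
    exact h2
  have hco : IsCoprime (X ^ i : ℚ[X]) ((X - C 1) ^ n) :=
    IsCoprime.pow ⟨1, -1, by rw [C_1]; ring⟩
  have d3 := hco.mul_dvd d1 d2
  apply Polynomial.eq_zero_of_dvd_of_natDegree_lt d3
  have hm : (X ^ i * (X - C 1) ^ n : ℚ[X]).natDegree = i + n := by
    rw [Polynomial.Monic.natDegree_mul (monic_X_pow i) ((monic_X_sub_C 1).pow n), natDegree_X_pow,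
      natDegree_pow, natDegree_X_sub_C, mul_one]
  rw [hm]
  exact h3

section
variable {h m : ℕ} {f : (ℤ × ℤ) →₀ ℚ}

theorem ph_pos0 (hd1 : KK * h - (KK + 1) * m < 1 / 2)
    (hf : (↑f.support : Set (ℤ × ℤ)) ⊆ AB h)
    (hH : ∀ b < m, ∀ c : ℤ, ⌊KK * h - (KK + 1) * (b : ℝ)⌋ < c + 11 * ((m : ℤ) - b) →
      tc f c b = 0) {c : ℤ} (hc : 0 < c) : ph f c = 0 := by
  obtain ⟨k1, k2, k3⟩ := KK_bounds
  have hc' : (1 : ℝ) ≤ c := by exact_mod_cast hc
  apply taylor_injective 1
  rw [map_zero]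
  ext b
  rw [coeff_zero]
  by_cases hb : b < m
  · rw [ph_taylor]
    refine tc_zero hH hb ?_
    have hb' : (b : ℝ) < m := by exact_mod_cast hb
    have : 0 ≤ (10 - KK) * ((m : ℝ) - b) := mul_nonneg (by linarith) (by linarith)
    linarith
  · push Not at hb
    have hdeg : (ph f c).degree < (m : ℕ) := by
      rw [degree_lt_iff_coeff_zero]
      intro k hk
      apply ph_high (fun f c k => ph_coeff f c k) hf
      have hk' : (m : ℝ) ≤ k := by exact_mod_cast hk
      nlinarith
    apply coeff_eq_zero_of_degree_lt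
    rw [degree_taylor]
    exact hdeg.trans_le (by exact_mod_cast hb)

/-- the columns `0 ≤ t ≤ i` vanish -/
theorem col_zero (hf : (↑f.support : Set (ℤ × ℤ)) ⊆ AB h) (h0 : f (0, (h : ℤ)) = 0)
    {t i : ℕ} (hti : t ≤ i) (hw : ∀ k < t + i, wc f (t : ℤ) k = 0) : colp f (t : ℤ) = 0 := by
  obtain ⟨k1, k2, k3⟩ := KK_bounds
  have hpos : ∀ p ∈ f.support, 0 ≤ p.2 := fun p hp => (supp hf hp).1
  rcases Nat.eq_zero_or_pos t with ht | ht
  · subst ht
    ext j
    rw [colp_coeff f hpos, coeff_zero]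
    by_contra hne
    have hp : (((0 : ℕ) : ℤ), (j : ℤ)) ∈ f.support := Finsupp.mem_support_iff.2 hne
    obtain ⟨-, -, h3, h4, -⟩ := supp hf hp
    simp only [Nat.cast_zero, Int.cast_zero, Int.cast_natCast, Nat.cast_le] at h3 h4
    rcases Nat.lt_or_ge j h with h5 | h5
    · have h5' : (j : ℝ) < h := by exact_mod_cast h5
      nlinarith
    · have : j = h := le_antisymm h3 h5
      rw [this] at hne
      exact hne h0
  · have hKpos : 0 < KK := by linarith
    have hK9 : 0 < KK - 9 := by linarith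
    have hq := KK_quad
    set j0 : ℕ := ⌈(h : ℝ) - t / (KK - 9)⌉₊ with hj0
    have hj0' : (h : ℝ) - t / (KK - 9) ≤ j0 := Nat.le_ceil _
    have ht' : (1 : ℝ) ≤ t := by exact_mod_cast ht
    have key : ∀ j : ℕ, f ((t : ℤ), (j : ℤ)) ≠ 0 → j0 ≤ j ∧ j < j0 + 2 * t := by
      intro j hne
      have hp : ((t : ℤ), (j : ℤ)) ∈ f.support := Finsupp.mem_support_iff.2 hne
      obtain ⟨-, -, h3, h4, h5⟩ := supp hf hp
      simp only [Int.cast_natCast] at h4 h5
      refine ⟨?_, ?_⟩
      · rw [hj0, Nat.ceil_le]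
        have : (h : ℝ) - j ≤ t / (KK - 9) := by
          rw [le_div_iff₀ hK9]
          linarith
        linarith
      · by_contra hc
        push Not at hc
        have hc' : (j0 : ℝ) + 2 * t ≤ j := by exact_mod_cast hc
        have e1 : (t : ℝ) / (KK - 9) = 2 * t + t / KK := by
          field_simp
          nlinarith
        have h6 : (t : ℝ) / KK ≤ (h : ℝ) - j := by
          rw [div_le_iff₀ hKpos]
          linarith
        have h7 : (h : ℝ) - j = t / KK := by linarith
        have h8 : KK * (((h : ℤ) - (j : ℤ) : ℤ) : ℝ) = ((t : ℤ) : ℝ) := by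
          push_cast
          rw [h7]
          field_simp
        refine KK_irr (t : ℤ) ((h : ℤ) - (j : ℤ)) ?_ h8
        intro h9
        rw [h9] at h8
        simp only [Int.cast_zero, mul_zero, Int.cast_natCast] at h8
        linarith
    have hlow : ∀ k < j0, (colp f (t : ℤ)).coeff k = 0 := by
      intro k hk
      rw [colp_coeff f hpos]
      by_contra hne
      have := (key k hne).1
      omega
    have hdeg : (colp f (t : ℤ)).natDegree < j0 + (t + i) := by
      have : (colp f (t : ℤ)).natDegree ≤ j0 + 2 * t - 1 := by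
        rw [natDegree_le_iff_coeff_eq_zero]
        intro k hk
        rw [colp_coeff f hpos]
        by_contra hne
        have := (key k hne).2
        omega
      omega
    exact factor0 hlow (fun b hb => by rw [colp_taylor]; exact hw b hb) hdeg

theorem ph_neg0 (hd0 : 0 ≤ KK * h - (KK + 1) * m) (hd1 : KK * h - (KK + 1) * m < 1 / 2)
    (hf : (↑f.support : Set (ℤ × ℤ)) ⊆ AB h) (h0 : f (0, (h : ℤ)) = 0)
    (hH : ∀ b < m, ∀ c : ℤ, ⌊KK * h - (KK + 1) * (b : ℝ)⌋ < c + 11 * ((m : ℤ) - b) →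
      tc f c b = 0) (i : ℕ) : ph f (-(i : ℤ)) = 0 := by
  induction i using Nat.strong_induction_on with
  | _ i ih =>
    obtain ⟨k1, k2, k3⟩ := KK_bounds
    have hq := KK_quad
    have hw : ∀ t : ℕ, ∀ k < t + i, wc f (t : ℤ) k = 0 := by
      intro t k hk
      have h2 := ph_coeff f ((t : ℤ) - k) k
      rw [sub_add_cancel] at h2
      rw [← h2]
      rcases lt_or_ge 0 ((t : ℤ) - k) with h3 | h3
      · rw [ph_pos0 hd1 hf hH h3, coeff_zero]
      · have h4 : (t : ℤ) - k = -((k - t : ℕ) : ℤ) := by omega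
        rw [h4, ih (k - t) (by omega), coeff_zero]
    have hcol : ∀ t ≤ i, colp f (t : ℤ) = 0 := fun t ht => col_zero hf h0 ht (hw t)
    set d : ℝ := KK * h - (KK + 1) * m with hd
    have h10 : 0 < 10 - KK := by linarith
    have hK1 : 0 < KK + 1 := by linarith
    set J : ℕ := ⌊((i : ℝ) + d) / (10 - KK)⌋₊ with hJ
    set D : ℕ := ⌊((i : ℝ) + d) / (KK + 1)⌋₊ with hD
    have hid : 0 ≤ (i : ℝ) + d := add_nonneg (Nat.cast_nonneg i) hd0
    have hJ1 : (J : ℝ) ≤ ((i : ℝ) + d) / (10 - KK) := Nat.floor_le (div_nonneg hid h10.le)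
    have hD1 : (D : ℝ) ≤ ((i : ℝ) + d) / (KK + 1) := Nat.floor_le (div_nonneg hid hK1.le)
    have hJ2 : ((i : ℝ) + d) / (10 - KK) < J + 1 := Nat.lt_floor_add_one _
    have hD2 : ((i : ℝ) + d) / (KK + 1) < D + 1 := Nat.lt_floor_add_one _
    have hsum : ((i : ℝ) + d) / (10 - KK) + ((i : ℝ) + d) / (KK + 1) = 2 * (i + d) := by
      field_simp
      have : (10 - KK) * (KK + 1) = 11 / 2 := by nlinarith
      nlinarith
    have hJD : J + D < 2 * i + 1 := by
      have : (J : ℝ) + D < 2 * i + 1 := by linarith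
      exact_mod_cast this
    apply factor0 (i := 2 * i + 1) (n := m - J)
    · intro k hk
      rcases Nat.lt_or_ge k i with h3 | h3
      · exact ph_low (fun f c k => ph_coeff f c k) hf (by omega)
      · rw [ph_coeff, ← colp_taylor]
        have h4 : -(i : ℤ) + k = ((k - i : ℕ) : ℤ) := by omega
        rw [h4, hcol (k - i) (by omega), map_zero, coeff_zero]
    · intro b hb
      rw [ph_taylor]
      refine tc_zero hH (by omega) ?_
      have hb2 : J + 1 + b ≤ m := by omega
      have hb3 : (J : ℝ) + 1 ≤ (m : ℝ) - b := by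
        have : ((J + 1 + b : ℕ) : ℝ) ≤ m := by exact_mod_cast hb2
        push_cast at this
        linarith
      rw [div_lt_iff₀ h10] at hJ2
      have := mul_le_mul_of_nonneg_left hb3 h10.le
      push_cast
      nlinarith
    · have hdeg : (ph f (-(i : ℤ))).natDegree ≤ m + D := by
        rw [natDegree_le_iff_coeff_eq_zero]
        intro k hk
        apply ph_high (fun f c k => ph_coeff f c k) hf
        have hk' : (m : ℝ) + D + 1 ≤ k := by exact_mod_cast hk
        rw [div_lt_iff₀ hK1] at hD2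
        have := mul_le_mul_of_nonneg_left hk' hK1.le
        push_cast
        nlinarith
      omega

end

theorem apexfree {h m : ℕ} (hd0 : 0 ≤ KK * h - (KK + 1) * m)
    (hd1 : KK * h - (KK + 1) * m < 1 / 2)
    {f : (ℤ × ℤ) →₀ ℚ} (hf : (↑f.support : Set (ℤ × ℤ)) ⊆ AB h) (h0 : f (0, (h : ℤ)) = 0)
    (hH : ∀ b < m, ∀ c : ℤ, ⌊KK * h - (KK + 1) * (b : ℝ)⌋ < c + 11 * ((m : ℤ) - b) →
      tc f c b = 0) : f = 0 := by
  have hpos : ∀ p ∈ f.support, 0 ≤ p.2 := fun p hp => (supp hf hp).1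
  have hph : ∀ c : ℤ, ph f c = 0 := by
    intro c
    rcases lt_or_ge 0 c with h3 | h3
    · exact ph_pos0 hd1 hf hH h3
    · have h4 : c = -((c.natAbs : ℕ) : ℤ) := by omega
      rw [h4]
      exact ph_neg0 hd0 hd1 hf h0 hH _
  have hcol : ∀ t : ℤ, colp f t = 0 := by
    intro t
    apply taylor_injective 1
    rw [map_zero]
    ext k
    rw [colp_taylor, coeff_zero]
    have h2 := ph_coeff f (t - k) k
    rw [sub_add_cancel, hph, coeff_zero] at h2
    exact h2.symm
  ext p
  rw [Finsupp.zero_apply]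
  by_contra hne
  have hp : p ∈ f.support := Finsupp.mem_support_iff.2 hne
  have h2 := hpos p hp
  have h3 := colp_coeff f hpos p.1 p.2.toNat
  rw [hcol, coeff_zero] at h3
  have h4 : (p.1, ((p.2.toNat : ℕ) : ℤ)) = p := by
    apply Prod.ext
    · rfl
    · simp only
      omega
  rw [h4] at h3
  exact hne h3.symm

end Pool.Agent.E8helper39.AX
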