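import Mathlib

/-! AX piece C2 (project AX of helper80, MP_cfebfb_ag). -/

open Polynomial

namespace Pool.Agent.E8helper39.AX

noncomputable section

/-- inverse of `1 - X` -/
def U : PowerSeries ℚ := (1 - PowerSeries.X)⁻¹
/-- inverse of `1 + X` -/
def V : PowerSeries ℚ := (1 + PowerSeries.X)⁻¹

theorem U_spec : (1 - PowerSeries.X) * U = 1 := by
  unfold U
  exact PowerSeries.mul_inv_cancel _ (by simp)

theorem V_spec : (1 + PowerSeries.X) * V = 1 := by
  unfold V
  exact PowerSeries.mul_inv_cancel _ (by simp)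

/-- the `i`-th coefficient series -/
def CC (q u : PowerSeries ℚ) (m : ℕ) (R : PowerSeries ℚ[X]) (i : ℕ) : PowerSeries ℚ :=
  q ^ m * u ^ (2 * i) * ((PowerSeries.coeff i R : ℚ[X]) : PowerSeries ℚ)

theorem CC_mul (q u : PowerSeries ℚ) (m m' : ℕ) (R R' : PowerSeries ℚ[X]) (i : ℕ) :
    CC q u (m + m') (R * R') i =
      ∑ p ∈ Finset.HasAntidiagonal.antidiagonal i, CC q u m R p.1 * CC q u m' R' p.2 := by
  unfold CC
  rw [PowerSeries.coeff_mul]
  have h : ((∑ p ∈ Finset.HasAntidiagonal.antidiagonal i, PowerSeries.coeff p.1 R * PowerSeries.coeff p.2 R' :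
      ℚ[X]) : PowerSeries ℚ) = ∑ p ∈ Finset.HasAntidiagonal.antidiagonal i,
        ((PowerSeries.coeff p.1 R : ℚ[X]) : PowerSeries ℚ) *
          ((PowerSeries.coeff p.2 R' : ℚ[X]) : PowerSeries ℚ) := by
    rw [← Polynomial.coeToPowerSeries.ringHom_apply, map_sum]
    refine Finset.sum_congr rfl fun p _ => ?_
    rw [map_mul]
    rfl
  rw [h, Finset.mul_sum]
  refine Finset.sum_congr rfl fun p hp => ?_
  have h2 : p.1 + p.2 = i := Finset.HasAntidiagonal.mem_antidiagonal.mp hp
  rw [← h2, pow_add, mul_add, pow_add]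
  ring

/-- A pair of compatible structures. -/
structure Good (m h : ℕ) (R G : PowerSeries ℚ[X]) : Prop where
  dR : ∀ i, (PowerSeries.coeff i R).natDegree ≤ i
  dG : ∀ t, (PowerSeries.coeff t G).natDegree ≤ t - 1
  cmp : ∀ i ≤ 9, ∀ t ≤ 9, PowerSeries.coeff t (CC (1 - PowerSeries.X) U m R i) =
    PowerSeries.coeff i (CC (1 + PowerSeries.X) V h G t)

theorem Good.mul {m h m' h' : ℕ} {R G R' G' : PowerSeries ℚ[X]} (H : Good m h R G)
    (H' : Good m' h' R' G') : Good (m + m') (h + h') (R * R') (G * G') := by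
  refine ⟨?_, ?_, ?_⟩
  · intro i
    rw [PowerSeries.coeff_mul]
    refine Polynomial.natDegree_sum_le_of_forall_le _ _ fun p hp => ?_
    have h2 : p.1 + p.2 = i := Finset.HasAntidiagonal.mem_antidiagonal.mp hp
    refine Polynomial.natDegree_mul_le.trans ?_
    have := H.dR p.1
    have := H'.dR p.2
    omega
  · intro i
    rw [PowerSeries.coeff_mul]
    refine Polynomial.natDegree_sum_le_of_forall_le _ _ fun p hp => ?_
    have h2 : p.1 + p.2 = i := Finset.HasAntidiagonal.mem_antidiagonal.mp hp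
    refine Polynomial.natDegree_mul_le.trans ?_
    have := H.dG p.1
    have := H'.dG p.2
    omega
  · intro i hi t ht
    rw [CC_mul, CC_mul, map_sum, map_sum]
    simp_rw [PowerSeries.coeff_mul]
    rw [Finset.sum_comm]
    refine Finset.sum_congr rfl fun p hp => Finset.sum_congr rfl fun r hr => ?_
    have h2 : p.1 + p.2 = t := Finset.HasAntidiagonal.mem_antidiagonal.mp hp
    have h3 : r.1 + r.2 = i := Finset.HasAntidiagonal.mem_antidiagonal.mp hr
    rw [H.cmp r.1 (by omega) p.1 (by omega), H'.cmp r.2 (by omega) p.2 (by omega)]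

theorem Good.one : Good 0 0 1 1 := by
  refine ⟨?_, ?_, ?_⟩
  · intro i
    rw [PowerSeries.coeff_one]
    split_ifs <;> simp
  · intro i
    rw [PowerSeries.coeff_one]
    split_ifs <;> simp
  · intro i _ t _
    unfold CC
    rw [PowerSeries.coeff_one, PowerSeries.coeff_one]
    by_cases hi : i = 0
    · by_cases ht : t = 0
      · subst hi; subst ht; simp
      · subst hi
        simp [ht, PowerSeries.coeff_one]
    · by_cases ht : t = 0
      · subst ht
        simp [hi, PowerSeries.coeff_one]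
      · simp [hi, ht]

theorem Good.pow {m h : ℕ} {R G : PowerSeries ℚ[X]} (H : Good m h R G) (n : ℕ) :
    Good (n * m) (n * h) (R ^ n) (G ^ n) := by
  induction n with
  | zero => simpa using Good.one
  | succ n ih =>
    rw [Nat.succ_mul, Nat.succ_mul, pow_succ, pow_succ]
    exact ih.mul H

/-- positivity predicate -/
def Pos (k : ℕ) (R : PowerSeries ℚ[X]) : Prop :=
  (∀ i, 0 ≤ (PowerSeries.coeff i R).eval 1) ∧ ∀ i ≤ k, 0 < (PowerSeries.coeff i R).eval 1

theorem Pos.mul {k k' : ℕ} {R R' : PowerSeries ℚ[X]} (H : Pos k R) (H' : Pos k' R') :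
    Pos (k + k') (R * R') := by
  refine ⟨?_, ?_⟩
  · intro i
    rw [PowerSeries.coeff_mul, Polynomial.eval_finsetSum]
    refine Finset.sum_nonneg fun p _ => ?_
    rw [Polynomial.eval_mul]
    exact mul_nonneg (H.1 _) (H'.1 _)
  · intro i hi
    rw [PowerSeries.coeff_mul, Polynomial.eval_finsetSum]
    refine Finset.sum_pos' (fun p _ => ?_) ⟨(min i k, i - min i k), ?_, ?_⟩
    · rw [Polynomial.eval_mul]
      exact mul_nonneg (H.1 _) (H'.1 _)
    · rw [Finset.HasAntidiagonal.mem_antidiagonal]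
      simp only
      omega
    · rw [Polynomial.eval_mul]
      exact mul_pos (H.2 _ (by simp)) (H'.2 _ (by simp only; omega))

theorem Pos.one : Pos 0 1 := by
  refine ⟨?_, ?_⟩
  · intro i
    rw [PowerSeries.coeff_one]
    split_ifs <;> simp
  · intro i hi
    have : i = 0 := by omega
    subst this
    simp

theorem Pos.pow {k : ℕ} {R : PowerSeries ℚ[X]} (H : Pos k R) (n : ℕ) : Pos (n * k) (R ^ n) := by
  induction n with
  | zero => simpa using Pos.one
  | succ n ih =>
    rw [Nat.succ_mul, pow_succ]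
    exact ih.mul H

/-- the polynomial of a list of integers -/
def pol : List ℤ → ℚ[X]
  | [] => 0
  | a :: l => C (a : ℚ) + X * pol l

theorem pol_coeff : ∀ (l : List ℤ) (k : ℕ), (pol l).coeff k = ((l.getD k 0 : ℤ) : ℚ)
  | [], k => by simp [pol]
  | a :: l, 0 => by simp [pol]
  | a :: l, k + 1 => by
      have := pol_coeff l k
      simp only [pol, Polynomial.coeff_add, Polynomial.coeff_X_mul, List.getD_cons_succ, this,
        Polynomial.coeff_C_succ, zero_add]

theorem pol_deg : ∀ (l : List ℤ), (pol l).natDegree ≤ l.length - 1 := by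
  intro l
  rw [Polynomial.natDegree_le_iff_coeff_eq_zero]
  intro k hk
  rw [pol_coeff, List.getD_eq_default]
  · simp
  · omega

theorem pol_eval : ∀ (l : List ℤ), (pol l).eval 1 = ((l.sum : ℤ) : ℚ)
  | [] => by simp [pol]
  | a :: l => by
      simp only [pol, Polynomial.eval_add, Polynomial.eval_C, Polynomial.eval_mul,
        Polynomial.eval_X, pol_eval l, List.sum_cons, one_mul]
      push_cast
      ring

def addL : List ℤ → List ℤ → List ℤ
  | [], b => b
  | a :: l, [] => a :: l
  | a :: l, b :: l' => (a + b) :: addL l l'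

theorem pol_addL : ∀ (a b : List ℤ), pol (addL a b) = pol a + pol b
  | [], b => by simp [addL, pol]
  | a :: l, [] => by simp [addL, pol]
  | a :: l, b :: l' => by
      simp only [addL, pol, pol_addL l l']
      push_cast
      rw [Polynomial.C_add]
      ring

def smulL (c : ℤ) : List ℤ → List ℤ
  | [] => []
  | a :: l => (c * a) :: smulL c l

theorem pol_smulL (c : ℤ) : ∀ (a : List ℤ), pol (smulL c a) = C (c : ℚ) * pol a
  | [] => by simp [smulL, pol]
  | a :: l => by
      simp only [smulL, pol, pol_smulL c l]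
      push_cast
      rw [Polynomial.C_mul]
      ring

def mulL : List ℤ → List ℤ → List ℤ
  | [], _ => []
  | a :: l, b => addL (smulL a b) (0 :: mulL l b)

theorem pol_mulL : ∀ (a b : List ℤ), pol (mulL a b) = pol a * pol b
  | [], b => by simp [mulL, pol]
  | a :: l, b => by
      simp only [mulL, pol, pol_addL, pol_smulL, pol_mulL l b]
      push_cast
      rw [Polynomial.C_0]
      ring

def powL (a : List ℤ) : ℕ → List ℤ
  | 0 => [1]
  | n + 1 => mulL a (powL a n)

theorem pol_powL (a : List ℤ) : ∀ n, pol (powL a n) = pol a ^ n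
  | 0 => by simp [powL, pol]
  | n + 1 => by
      simp only [powL, pol_mulL, pol_powL a n]
      ring

def zeroL : List ℤ → Bool
  | [] => true
  | a :: l => (a == 0) && zeroL l

theorem pol_zeroL : ∀ (a : List ℤ), zeroL a = true → pol a = 0
  | [], _ => rfl
  | a :: l, h => by
      simp only [zeroL, Bool.and_eq_true, beq_iff_eq] at h
      simp only [pol, h.1, pol_zeroL l h.2]
      simp

/-- check of an identity `a = b` -/
def eqL (a b : List ℤ) : Bool := zeroL (addL a (smulL (-1) b))

theorem pol_eqL {a b : List ℤ} (h : eqL a b = true) : pol a = pol b := by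
  have := pol_zeroL _ h
  rw [pol_addL, pol_smulL] at this
  have h2 : pol a - pol b = 0 := by
    rw [← this]
    push_cast
    rw [Polynomial.C_neg, Polynomial.C_1]
    ring
  exact sub_eq_zero.mp h2

/-- the coefficient array -/
def bb (m t i : ℕ) : ℤ :=
  (if t % 2 = 0 then 1 else -1) * ((Nat.choose (m - i) t : ℕ) : ℤ) *
    ((Nat.choose (m + 1 - t) i : ℕ) : ℤ)

/-- column -/
def colL (m i : ℕ) : List ℤ := (List.range 12).map fun t => bb m t i
/-- row -/
def rowL (m t : ℕ) : List ℤ := (List.range 12).map fun i => bb m t i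

/-- the whole numerical check -/
def chk (m : ℕ) (T S : List (List ℤ)) : Bool :=
  ((List.range 10).all fun i =>
    eqL (mulL (powL [1, -1] m) (T.getD i [])) (mulL (powL [1, -1] (2 * i)) (colL m i)) &&
    eqL (mulL (powL [1, 1] (m + 1)) (S.getD i [])) (mulL (powL [1, 1] (2 * i)) (rowL m i)) &&
    decide ((T.getD i []).length ≤ i + 1) && decide ((S.getD i []).length ≤ i - 1 + 1) &&
    ((List.range 10).all fun t => (colL m i).getD t 0 == (rowL m t).getD i 0)) &&
  decide (T.length = 10) && decide (S.length = 10)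

/-- `rho` for m = 9 -/
def tabP : List (List ℤ) :=
  [[1],
   [10, -2],
   [45, -27, 3],
   [120, -144, 48, -4],
   [210, -420, 280, -70, 5],
   [252, -756, 840, -420, 90, -6],
   [210, -882, 1470, -1225, 525, -105, 7],
   [120, -672, 1568, -1960, 1400, -560, 112, -8],
   [45, -324, 1008, -1764, 1890, -1260, 504, -108, 9],
   [10, -90, 360, -840, 1260, -1260, 840, -360, 90, -10]]

/-- `g` for m = 9 -/
def gabP : List (List ℤ) :=
  [[1],
   [-9],
   [36, 8],
   [-84, -56, -7],
   [126, 168, 63, 6],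
   [-126, -280, -210, -60, -5],
   [84, 280, 350, 200, 50, 4],
   [-36, -168, -315, -300, -150, -36, -3],
   [9, 56, 147, 210, 175, 84, 21, 2],
   [-1, -8, -28, -56, -70, -56, -28, -8, -1]]

/-- `rho` for m = 10 -/
def tabQ : List (List ℤ) :=
  [[1],
   [11, -2],
   [55, -30, 3],
   [165, -180, 54, -4],
   [330, -600, 360, -80, 5],
   [462, -1260, 1260, -560, 105, -6],
   [462, -1764, 2646, -1960, 735, -126, 7],
   [330, -1680, 3528, -3920, 2450, -840, 140, -8],
   [165, -1080, 3024, -4704, 4410, -2520, 840, -144, 9],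
   [55, -450, 1620, -3360, 4410, -3780, 2100, -720, 135, -10]]

/-- `g` for m = 10 -/
def gabQ : List (List ℤ) :=
  [[1],
   [-10],
   [45, 9],
   [-120, -72, -8],
   [210, 252, 84, 7],
   [-252, -504, -336, -84, -6],
   [210, 630, 700, 350, 75, 5],
   [-120, -504, -840, -700, -300, -60, -4],
   [45, 252, 588, 735, 525, 210, 42, 3],
   [-10, -72, -224, -392, -420, -280, -112, -24, -2]]

/-- from a polynomial identity to the coefficient series, `1 - X`. -/
theorem CC_eq (q : ℚ[X]) (Q u : PowerSeries ℚ) (hQ : Q = (q : PowerSeries ℚ)) (hu : Q * u = 1)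
    (m i : ℕ) (R : PowerSeries ℚ[X]) (f : ℚ[X])
    (h : q ^ m * PowerSeries.coeff i R = q ^ (2 * i) * f) :
    CC Q u m R i = (f : PowerSeries ℚ) := by
  unfold CC
  have h1 : ((q ^ m * PowerSeries.coeff i R : ℚ[X]) : PowerSeries ℚ) =
      ((q ^ (2 * i) * f : ℚ[X]) : PowerSeries ℚ) := by rw [h]
  rw [Polynomial.coe_mul, Polynomial.coe_mul, Polynomial.coe_pow, Polynomial.coe_pow, ← hQ] at h1
  calc Q ^ m * u ^ (2 * i) * ((PowerSeries.coeff i R : ℚ[X]) : PowerSeries ℚ)
      = (Q ^ m * ((PowerSeries.coeff i R : ℚ[X]) : PowerSeries ℚ)) * u ^ (2 * i) := by ring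
    _ = (Q * u) ^ (2 * i) * (f : PowerSeries ℚ) := by rw [h1, mul_pow]; ring
    _ = (f : PowerSeries ℚ) := by rw [hu, one_pow, one_mul]

theorem hQ1 : (1 - PowerSeries.X : PowerSeries ℚ) = ((1 - X : ℚ[X]) : PowerSeries ℚ) := by
  simp

theorem hQ2 : (1 + PowerSeries.X : PowerSeries ℚ) = ((1 + X : ℚ[X]) : PowerSeries ℚ) := by
  simp


/-- series from a table -/
def RR (T : List (List ℤ)) : PowerSeries ℚ[X] := PowerSeries.mk fun i => pol (T.getD i [])

theorem coeff_RR (T : List (List ℤ)) (i : ℕ) : PowerSeries.coeff i (RR T) = pol (T.getD i []) := by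
  unfold RR
  rw [PowerSeries.coeff_mk]

theorem good_of (m : ℕ) (T S : List (List ℤ)) (h : chk m T S = true) :
    Good m (m + 1) (RR T) (RR S) := by
  unfold chk at h
  simp only [Bool.and_eq_true, List.all_eq_true, List.mem_range, decide_eq_true_eq,
    beq_iff_eq] at h
  obtain ⟨⟨h1, hT⟩, hS⟩ := h
  have e1 : pol [1, -1] = 1 - X := by
    simp [pol]
    ring
  have e2 : pol [1, 1] = 1 + X := by
    simp [pol]
  refine ⟨?_, ?_, ?_⟩
  · intro i
    rw [coeff_RR]
    by_cases hi : i < 10
    · have := (h1 i hi).1.1.2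
      exact (pol_deg _).trans (by omega)
    · rw [List.getD_eq_default _ _ (by omega)]
      simp [pol]
  · intro i
    rw [coeff_RR]
    by_cases hi : i < 10
    · have := (h1 i hi).1.2
      exact (pol_deg _).trans (by omega)
    · rw [List.getD_eq_default _ _ (by omega)]
      simp [pol]
  · intro i hi j hj
    rw [CC_eq (1 - X) (1 - PowerSeries.X) U hQ1 U_spec m i (RR T) (pol (colL m i)),
      CC_eq (1 + X) (1 + PowerSeries.X) V hQ2 V_spec (m + 1) j (RR S) (pol (rowL m j))]
    · rw [Polynomial.coeff_coe, Polynomial.coeff_coe, pol_coeff, pol_coeff,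
        (h1 i (by omega)).2 j (by omega)]
    · rw [coeff_RR]
      have := pol_eqL (h1 j (by omega)).1.1.1.2
      rw [pol_mulL, pol_mulL, pol_powL, pol_powL, e2] at this
      exact this
    · rw [coeff_RR]
      have := pol_eqL (h1 i (by omega)).1.1.1.1
      rw [pol_mulL, pol_mulL, pol_powL, pol_powL, e1] at this
      exact this

theorem good_P : Good 9 10 (RR tabP) (RR gabP) := good_of 9 tabP gabP (by decide +kernel)

theorem good_Q : Good 10 11 (RR tabQ) (RR gabQ) := good_of 10 tabQ gabQ (by decide +kernel)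

theorem pos_of (T : List (List ℤ)) (k : ℕ)
    (h : ((List.range T.length).all fun i => decide (0 ≤ (T.getD i []).sum) &&
      (decide (k < i) || decide (0 < (T.getD i []).sum))) = true) (hk : k < T.length) :
    Pos k (RR T) := by
  simp only [Bool.and_eq_true, Bool.or_eq_true, List.all_eq_true, List.mem_range,
    decide_eq_true_eq] at h
  refine ⟨?_, ?_⟩
  · intro i
    rw [coeff_RR, pol_eval]
    by_cases hi : i < T.length
    · exact_mod_cast (h i hi).1
    · rw [List.getD_eq_default _ _ (by omega)]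
      simp
  · intro i hi
    rw [coeff_RR, pol_eval]
    rcases (h i (by omega)).2 with h2 | h2
    · omega
    · exact_mod_cast h2

theorem pos_P : Pos 4 (RR tabP) := pos_of tabP 4 (by decide +kernel) (by decide +kernel)
theorem pos_Q : Pos 4 (RR tabQ) := pos_of tabQ 4 (by decide +kernel) (by decide +kernel)

theorem shift (q : ℚ[X]) (Q u : PowerSeries ℚ) (hQ : Q = (q : PowerSeries ℚ)) (hu : Q * u = 1)
    (m i : ℕ) (R : PowerSeries ℚ[X]) (h : 2 * i ≤ m) :
    CC Q u m R i = ((q ^ (m - 2 * i) * PowerSeries.coeff i R : ℚ[X]) : PowerSeries ℚ) := by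
  refine CC_eq q Q u hQ hu m i R _ ?_
  rw [← mul_assoc, ← pow_add]
  congr 2
  omega

theorem exists_sol {m h e N : ℕ} (he : 3 ≤ e) (hh : h = m + e) (hm1 : 9 * e ≤ m)
    (hm2 : m ≤ 10 * e) (hN : N ≤ 9) (hN1 : 1 ≤ N) : ∃ b : ℕ → ℕ → ℚ,
    (∀ i ≤ N, ∃ r : ℚ[X], r.natDegree ≤ i ∧
      (∀ t ≤ N, b t i = ((1 - X) ^ (m - 2 * i) * r).coeff t) ∧ (i = N → r.eval 1 ≠ 0)) ∧
    (∀ t ≤ N, ∃ g : ℚ[X], g.natDegree ≤ t - 1 ∧
      ∀ i ≤ N, b t i = ((1 + X) ^ (h - 2 * t) * g).coeff i) := by
  obtain ⟨c, hc⟩ : ∃ c, m = 9 * e + c := ⟨m - 9 * e, by omega⟩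
  obtain ⟨a, ha⟩ : ∃ a, e = a + c := ⟨e - c, by omega⟩
  have hG := (good_P.pow a).mul (good_Q.pow c)
  have hP := (pos_P.pow a).mul (pos_Q.pow c)
  have em : a * 9 + c * 10 = m := by omega
  have eh : a * 10 + c * 11 = h := by omega
  rw [em, eh] at hG
  set R := RR tabP ^ a * RR tabQ ^ c with hR
  set G := RR gabP ^ a * RR gabQ ^ c with hGd
  refine ⟨fun t i => ((1 - X) ^ (m - 2 * i) * PowerSeries.coeff i R : ℚ[X]).coeff t, ?_, ?_⟩
  · intro i hi
    refine ⟨PowerSeries.coeff i R, hG.dR i, fun t _ => rfl, fun hiN => ?_⟩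
    exact (hP.2 i (by omega)).ne'
  · intro t ht
    refine ⟨PowerSeries.coeff t G, hG.dG t, fun i hi => ?_⟩
    have h1 := hG.cmp i (by omega) t (by omega)
    rw [shift (1 - X) _ U hQ1 U_spec m i R (by omega),
      shift (1 + X) _ V hQ2 V_spec h t G (by omega), Polynomial.coeff_coe,
      Polynomial.coeff_coe] at h1
    exact h1

end

end Pool.Agent.E8helper39.AX
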